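import Pool.Agent.W_30d1b9f_h31.Full

open Pool.Agent.W_30d1b9_h50 Pool.Agent.W_30d1b9f_h31

/-- Question 1 for all games `CN(n,k)` with `n/3 < k ≤ n`. `Fam n k` says that `k = n - 1` or
`(n,k)` is one of `(3m, m+1)`, `(3m+1, m+1)`, `(3m+2, m+1)`, `m ≥ 1`.
(1) `CN(n,k)` has a nonzero invariant vector iff `Fam n k`.
(2) If `Fam n k`, then `(1,...,1)` is an invariant vector.
(3) If not `Fam n k`, then for every nonzero vector `z` of nonnegative integers there is a
P-position `p` such that `p + z` is not a P-position. -/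
theorem Pool.Agent.Results.MP_30d1b9_co.FullAnswer.result (n k : ℕ) [NeZero n]
    (h1 : n < 3 * k) (h2 : k ≤ n) :
    ((∃ z : ZMod n → ℕ, z ≠ 0 ∧ Invariant n k z) ↔ Fam n k) ∧
    (Fam n k → Invariant n k fun _ => 1) ∧
    (¬ Fam n k → ∀ z : ZMod n → ℕ, z ≠ 0 →
      ∃ p : ZMod n → ℕ, IsP n k p ∧ ¬ IsP n k (p + z)) := by
  refine ⟨⟨?_, fun h => ⟨fun _ => 1, fun h3 => ?_, pos_half h⟩⟩, fun h => pos_half h,
    fun hF z hz => neg_half h1 h2 hF z hz⟩
  · rintro ⟨z, hz, hinv⟩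
    by_contra hF
    obtain ⟨p, hp, hpz⟩ := neg_half h1 h2 hF z hz
    refine absurd (hinv.2 p hp 1 (p + z) fun i => ?_) hpz
    rw [Pi.add_apply]
    push_cast
    ring
  · have := congrFun h3 0
    exact absurd this one_ne_zero
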